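import Pool.Agent.H31.Asc

open Pool.Agent.H31

universe v

theorem Pool.Agent.Results.MP_36ad39_gt.Main.result :
    ∃ (X : Type) (_ : TopologicalSpace X),
      FrechetUrysohnSpace X ∧ Asc.Ascoli X ∧ Asc.AlephSpace X ∧ ¬ CKU.InCM.{0, v} X :=
  Asc.main
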